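import Mathlib

set_option autoImplicit false

namespace Pool.Agent.Helper14.QH

open scoped BigOperators RealInnerProductSpace

/-- QH-F (Cramer). -/
theorem cramer {d : ℕ} (v : Fin d → EuclideanSpace ℝ (Fin d))
    (hv : (EuclideanSpace.basisFun (Fin d) ℝ).toBasis.det v ≠ 0) (p : EuclideanSpace ℝ (Fin d)) :
    p = ∑ j, ((EuclideanSpace.basisFun (Fin d) ℝ).toBasis.det (Function.update v j p) /
      (EuclideanSpace.basisFun (Fin d) ℝ).toBasis.det v) • v j := by
  classical
  set e := (EuclideanSpace.basisFun (Fin d) ℝ).toBasis with he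
  obtain ⟨hli, hsp⟩ := (Module.Basis.is_basis_iff_det e).2 (isUnit_iff_ne_zero.2 hv)
  set b := Module.Basis.mk hli hsp.ge with hb
  have hbv : ∀ j, b j = v j := fun j => by rw [hb, Module.Basis.mk_apply]
  have hp : p = ∑ k, (b.repr p k) • v k := by
    conv_lhs => rw [← b.sum_repr p]
    exact Finset.sum_congr rfl fun k _ => by rw [hbv]
  have hdet : ∀ j, e.det (Function.update v j p) = b.repr p j * e.det v := by
    intro j
    have h1 : e.det (Function.update v j p) =
        ∑ k, e.det (Function.update v j ((b.repr p k) • v k)) := by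
      conv_lhs => rw [hp]
      exact AlternatingMap.map_update_sum e.det Finset.univ j (fun k => (b.repr p k) • v k) v
    rw [h1, Finset.sum_eq_single j]
    · rw [AlternatingMap.map_update_smul, Function.update_eq_self, smul_eq_mul]
    · intro k _ hkj
      rw [AlternatingMap.map_update_smul, AlternatingMap.map_update_self _ _ (Ne.symm hkj), smul_zero]
    · intro h; exact absurd (Finset.mem_univ j) h
  conv_lhs => rw [hp]
  refine Finset.sum_congr rfl fun j _ => ?_
  rw [hdet j, mul_div_assoc, div_self hv, mul_one]

end Pool.Agent.Helper14.QH
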